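import Pool.Agent.Helper92.AM.Final

/-!
Functions which are computed by decision trees with `s` leaves (in particular they have DNF formulas
with `s` terms) and which are unate up to a constant amount of influence are learned to every
constant accuracy from uniform random examples by a Turing machine in time polynomial in `n`, `s`
and `1 / δ`. The case `c = 0` is the one of unate (in particular monotone) functions.
The orientation `σ` is not known to the learner.
-/

set_option autoImplicit false

namespace Pool.Agent.Results.MP_cba12a_lc.AlmostUnateTrees

open Pool.Agent.NPC

/-- Decision trees: a leaf has a value, an inner node has the index of a variable, the subtree for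
the value `0` of this variable and the subtree for the value `1`. -/
inductive Tree where
  | leaf (b : Bool) : Tree
  | node (i : ℕ) (l r : Tree) : Tree

/-- The value of a decision tree at the point with the coordinates `x`. -/
def Tree.eval (x : List Bool) : Tree → Bool
  | .leaf b => b
  | .node i l r => if x[i]? = some true then r.eval x else l.eval x

/-- The number of leaves. -/
def Tree.leaves : Tree → ℕ
  | .leaf _ => 1
  | .node _ l r => l.leaves + r.leaves

/-- The expected number, for uniform random `x` in the cube, of the coordinates `i` with the value
different from `σ i`, such that `f x = 1` and the change of the coordinate `i` of `x` gives the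
value `0` of `f`. It is zero if and only if `f` is unate with the orientation `σ`. -/
noncomputable def wrong {n : ℕ} (σ : Fin n → Bool) (f : (Fin n → Bool) → Bool) : ℝ :=
  (∑ x : Fin n → Bool, ∑ i, if x i ≠ σ i ∧ f x = true ∧
    f (Function.update x i (!x i)) = false then (1 : ℝ) else 0) / 2 ^ n

/-- The labelled examples `(x j, f (x j))`. -/
def sample {n m : ℕ} (f : (Fin n → Bool) → Bool) (x : Fin m → Fin n → Bool) :
    List (List Bool × Bool) := List.ofFn fun j => (List.ofFn (x j), f (x j))

/-- The function `f` is computed by a Turing machine in polynomial time, with the codes of its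
arguments and values by bit strings. -/
def Computed {α β : Type} [TEnc α] [TEnc β] (f : α → β) : Prop :=
  ∃ g : List Bool → List Bool, PolyTime g ∧ ∀ z, g (bits z) = bits (f z)

open Classical in
/-- The probability of the event `E` for a uniformly distributed element of `α`. -/
noncomputable def prob {α : Type} [Fintype α] (E : α → Prop) : ℝ :=
  ((Finset.univ.filter E).card : ℝ) / Fintype.card α

theorem prob_same {α : Type} [Fintype α] (E : α → Prop) : prob E = Pool.Agent.Helper92.AM.prob E := by
  classical
  rw [Pool.Agent.Helper92.AM.prob_eq]
  unfold prob
  congr 3

/-- Translation. -/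
def conv : Tree → Pool.Agent.Helper92.AM.Tree
  | .leaf b => .leaf b
  | .node i l r => .node i (conv l) (conv r)

theorem conv_leaves : ∀ T : Tree, (conv T).leaves = T.leaves
  | .leaf _ => rfl
  | .node _ l r => by
    simp only [conv, Pool.Agent.Helper92.AM.Tree.leaves, Tree.leaves, conv_leaves l, conv_leaves r]

theorem conv_eval (x : List Bool) : ∀ T : Tree, (conv T).eval x = T.eval x
  | .leaf _ => rfl
  | .node _ l r => by
    simp only [conv, Pool.Agent.Helper92.AM.Tree.eval, Tree.eval, conv_eval x l, conv_eval x r]

theorem wrong_eq {n : ℕ} (σ : Fin n → Bool) (f : (Fin n → Bool) → Bool) :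
    wrong σ f = ∑ i, Pool.Agent.Helper92.AM.bad σ f i := by
  unfold wrong Pool.Agent.Helper92.AM.bad
  rw [← Finset.sum_div, Finset.sum_comm]
  rfl

/-- For all constants `c` and `e` there are a constant `C`, a polynomial-time learner (its input is
a number `t` in unary and a list of labelled examples, its output is a string, the hypothesis) and a
polynomial-time evaluator (its input is a hypothesis and a point, its output is a bit) with the
following property. Let `t ≥ ((n + 2) * s * d) ^ C` and `m ≥ t ^ C`, let `f` be a function computed
by a decision tree with at most `s` leaves, and let the expected number of the sensitive coordinates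
of wrong sign at the points with the value `1` be at most `c` for some orientation. On `t` and `m`
independent uniform random examples of `f`, the hypothesis of the learner has error at most `1 / e`,
with probability at least `1 - 1 / d`. -/
theorem result (c e : ℕ) (he : 1 ≤ e) :
    ∃ (C : ℕ) (learner : List Unit × List (List Bool × Bool) → List Bool)
      (evaluate : List Bool × List Bool → Bool), Computed learner ∧ Computed evaluate ∧
      ∀ n s d : ℕ, 1 ≤ d → ∀ t m : ℕ, ((n + 2) * s * d) ^ C ≤ t → t ^ C ≤ m →
        ∀ f : (Fin n → Bool) → Bool, (∃ T : Tree, T.leaves ≤ s ∧ ∀ x, f x = T.eval (List.ofFn x)) →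
          (∃ σ : Fin n → Bool, wrong σ f ≤ c) →
          prob (fun x : Fin m → Fin n → Bool => 1 / (e : ℝ) < prob (fun y : Fin n → Bool =>
            evaluate (learner (List.replicate t (), sample f x), List.ofFn y) ≠ f y)) ≤ 1 / d := by
  refine ⟨Pool.Agent.Helper92.AM.cb c e, Pool.Agent.Helper92.AM.learnBits c e,
    Pool.Agent.Helper92.AM.evalBits,
    Pool.Agent.Helper92.AM.computed_of_poly (Pool.Agent.Helper92.AM.poly_learnBits c e),
    Pool.Agent.Helper92.AM.computed_of_poly Pool.Agent.Helper92.AM.poly_evalBits, ?_⟩
  intro n s d hd t m ht hm f hT hσ
  obtain ⟨T, hT1, hT2⟩ := hT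
  obtain ⟨σ, hσ⟩ := hσ
  rw [wrong_eq] at hσ
  have h := Pool.Agent.Helper92.AM.tree_prob he hd ht hm f (conv T)
    (fun x => by rw [conv_eval]; exact hT2 x) (by rw [conv_leaves]; exact hT1) σ hσ
  simp only [prob_same]
  exact h

end Pool.Agent.Results.MP_cba12a_lc.AlmostUnateTrees
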