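import Pool.Agent.Helper92.JU.Main

/-!
DNF formulas with any number of terms, whose values depend on at most `r` of the `n` coordinates
(juntas), and in which every variable occurs with its minority sign in at most `k` terms, are
learned exactly from uniform random examples by a Turing machine in time polynomial in `n`, `2 ^ r`
and `1 / δ`. The time is polynomial for `r = O(log n)`. The relevant coordinates, their number and
the signs `σ` are not known to the learner.
-/

set_option autoImplicit false

namespace Pool.Agent.Results.MP_cba12a_lc.ExactJuntas

open Pool.Agent.NPC

/-- A DNF formula, as the list of its terms. A term is the list of its literals; the literal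
`(i, b)` demands that the coordinate `i` is `b`. -/
abbrev DNF : Type := List (List (ℕ × Bool))

/-- The value of the formula `F` at the point with the coordinates `x`: some term has only true
literals. -/
def value (F : DNF) (x : List Bool) : Bool := F.any fun T => T.all fun l => decide (x[l.1]? = some l.2)

/-- For some choice of a sign for every variable, every variable occurs with the other sign in at
most `k` terms. -/
def FewOccurrences (k : ℕ) (F : DNF) : Prop :=
  ∃ σ : ℕ → Bool, ∀ i : ℕ, (F.filter fun T => decide ((i, !σ i) ∈ T)).length ≤ k

/-- The values of the formula `F` on the cube of dimension `n` depend on at most `r` coordinates. -/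
def IsJunta (n r : ℕ) (F : DNF) : Prop :=
  ∃ J : Finset (Fin n), J.card ≤ r ∧ ∀ x y : Fin n → Bool, (∀ i ∈ J, x i = y i) →
    value F (List.ofFn x) = value F (List.ofFn y)

/-- The labelled examples `(x j, F (x j))`. -/
def sample {n m : ℕ} (F : DNF) (x : Fin m → Fin n → Bool) : List (List Bool × Bool) :=
  List.ofFn fun j => (List.ofFn (x j), value F (List.ofFn (x j)))

/-- The function `f` is computed by a Turing machine in polynomial time, with the codes of its
arguments and values by bit strings. -/
def Computed {α β : Type} [TEnc α] [TEnc β] (f : α → β) : Prop :=
  ∃ g : List Bool → List Bool, PolyTime g ∧ ∀ z, g (bits z) = bits (f z)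

open Classical in
/-- The probability of the event `E` for a uniformly distributed element of `α`. -/
noncomputable def prob {α : Type} [Fintype α] (E : α → Prop) : ℝ :=
  ((Finset.univ.filter E).card : ℝ) / Fintype.card α

theorem prob_same {α : Type} [Fintype α] (E : α → Prop) : prob E = Pool.Agent.Helper92.AM.prob E := by
  classical
  rw [Pool.Agent.Helper92.AM.prob_eq]
  unfold prob
  congr 3

/-- For every constant `k` there are a constant `C`, a polynomial-time learner (its input is
a number `t` in unary and a list of labelled examples, its output is a string, the hypothesis) and a
polynomial-time evaluator (its input is a hypothesis and a point, its output is a bit) with the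
following property. Let `t ≥ ((n + 2) * 2 ^ r * d) ^ C` and `m ≥ t ^ C`, let `F` be a DNF
formula, with any number of terms, in which every variable has at most `k` minority occurrences, and
whose value depends on at most `r` of the `n` coordinates. On `t` and `m` independent uniform random
examples of `F`, the hypothesis of the learner is correct at all points, with probability at least
`1 - 1 / d`. -/
theorem result (k : ℕ) :
    ∃ (C : ℕ) (learner : List Unit × List (List Bool × Bool) → List Bool)
      (evaluate : List Bool × List Bool → Bool), Computed learner ∧ Computed evaluate ∧
      ∀ n r d : ℕ, 1 ≤ d → ∀ t m : ℕ,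
        ((n + 2) * 2 ^ r * d) ^ C ≤ t → t ^ C ≤ m →
        ∀ F : DNF, FewOccurrences k F → IsJunta n r F →
          prob (fun x : Fin m → Fin n → Bool => ∃ y : Fin n → Bool,
            evaluate (learner (List.replicate t (), sample F x), List.ofFn y) ≠
              value F (List.ofFn y)) ≤ 1 / d := by
  refine ⟨Pool.Agent.Helper92.JU.cj k, Pool.Agent.Helper92.JU.lrnBits k,
    Pool.Agent.Helper92.JU.evlBits,
    Pool.Agent.Helper92.AM.computed_of_poly (Pool.Agent.Helper92.JU.poly_lrnBits k),
    Pool.Agent.Helper92.AM.computed_of_poly Pool.Agent.Helper92.JU.poly_evlBits, ?_⟩
  intro n r d hd t m ht hm F hσ hJ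
  obtain ⟨σ, hσ⟩ := hσ
  obtain ⟨J, hJc, hJ⟩ := hJ
  have h := Pool.Agent.Helper92.JU.ju_prob (n := n) (m := m) hd ht hm F σ hσ J hJc hJ
  rw [prob_same]
  exact h

end Pool.Agent.Results.MP_cba12a_lc.ExactJuntas
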