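import Pool.Agent.Helper92.MO.Final

/-!
DNF formulas with `s` terms in which every variable occurs with its minority sign in at most `k`
terms are learned to every constant accuracy from uniform random examples by a Turing machine in
time polynomial in `n`, `s ^ log s` and `1 / δ`. The time is polynomial in `n` and `1 / δ` for
`s = 2 ^ O(sqrt (log n))`. The case `k = 0` is the one of unate (in particular monotone) formulas.
The signs `σ` which are in the majority are not known to the learner.
-/

set_option autoImplicit false

namespace Pool.Agent.Results.MP_cba12a_lc.FewMinorityOccurrences

open Pool.Agent.NPC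

/-- A DNF formula, as the list of its terms. A term is the list of its literals; the literal
`(i, b)` demands that the coordinate `i` is `b`. -/
abbrev DNF : Type := List (List (ℕ × Bool))

/-- The value of the formula `F` at the point with the coordinates `x`: some term has only true
literals. -/
def value (F : DNF) (x : List Bool) : Bool := F.any fun T => T.all fun l => decide (x[l.1]? = some l.2)

/-- For some choice of a sign for every variable, every variable occurs with the other sign in at
most `k` terms. -/
def FewOccurrences (k : ℕ) (F : DNF) : Prop :=
  ∃ σ : ℕ → Bool, ∀ i : ℕ, (F.filter fun T => decide ((i, !σ i) ∈ T)).length ≤ k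

/-- The labelled examples `(x j, F (x j))`. -/
def sample {n m : ℕ} (F : DNF) (x : Fin m → Fin n → Bool) : List (List Bool × Bool) :=
  List.ofFn fun j => (List.ofFn (x j), value F (List.ofFn (x j)))

/-- The function `f` is computed by a Turing machine in polynomial time, with the codes of its
arguments and values by bit strings. -/
def Computed {α β : Type} [TEnc α] [TEnc β] (f : α → β) : Prop :=
  ∃ g : List Bool → List Bool, PolyTime g ∧ ∀ z, g (bits z) = bits (f z)

open Classical in
/-- The probability of the event `E` for a uniformly distributed element of `α`. -/
noncomputable def prob {α : Type} [Fintype α] (E : α → Prop) : ℝ :=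
  ((Finset.univ.filter E).card : ℝ) / Fintype.card α

theorem prob_same {α : Type} [Fintype α] (E : α → Prop) : prob E = Pool.Agent.Helper92.AM.prob E := by
  classical
  rw [Pool.Agent.Helper92.AM.prob_eq]
  unfold prob
  congr 3

/-- For all constants `k` and `e` there are a constant `C`, a polynomial-time learner (its input is
a number `t` in unary and a list of labelled examples, its output is a string, the hypothesis) and a
polynomial-time evaluator (its input is a hypothesis and a point, its output is a bit) with the
following property. Let `t ≥ ((n + 2) * s ^ (log₂ s + 1) * d) ^ C` and `m ≥ t ^ C`, let `F` be a DNF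
formula with at most `s` terms, in which every variable has at most `k` minority occurrences. On `t`
and `m` independent uniform random examples of `F`, the hypothesis of the learner has error at most
`1 / e`, with probability at least `1 - 1 / d`. -/
theorem result (k e : ℕ) (he : 1 ≤ e) :
    ∃ (C : ℕ) (learner : List Unit × List (List Bool × Bool) → List Bool)
      (evaluate : List Bool × List Bool → Bool), Computed learner ∧ Computed evaluate ∧
      ∀ n s d : ℕ, 1 ≤ s → 1 ≤ d → ∀ t m : ℕ,
        ((n + 2) * s ^ (Nat.log 2 s + 1) * d) ^ C ≤ t → t ^ C ≤ m →
        ∀ F : DNF, FewOccurrences k F → F.length ≤ s →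
          prob (fun x : Fin m → Fin n → Bool => 1 / (e : ℝ) < prob (fun y : Fin n → Bool =>
            evaluate (learner (List.replicate t (), sample F x), List.ofFn y) ≠
              value F (List.ofFn y))) ≤ 1 / d := by
  refine ⟨Pool.Agent.Helper92.AM.ca k e, Pool.Agent.Helper92.AM.learnBits k e,
    Pool.Agent.Helper92.AM.evalBits,
    Pool.Agent.Helper92.AM.computed_of_poly (Pool.Agent.Helper92.AM.poly_learnBits k e),
    Pool.Agent.Helper92.AM.computed_of_poly Pool.Agent.Helper92.AM.poly_evalBits, ?_⟩
  intro n s d hs hd t m ht hm F hσ hF
  obtain ⟨σ, hσ⟩ := hσ
  have h := Pool.Agent.Helper92.MO.mo_prob he hs hd ht hm F hF σ hσ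
  simp only [prob_same]
  exact h

end Pool.Agent.Results.MP_cba12a_lc.FewMinorityOccurrences
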